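import Pool.Agent.helper11.TX.Spec3
import Pool.Agent.helper28.TX.TY

/-! Row TYS: VW 2 N is at most (5/6 + ε) VW 6 N for large N. -/

namespace Pool.Agent.helper11.TX

open Finset Pool.Agent.helper85.FC

theorem TYS_same : TY_0 3 (TY_f 2) = TY_0 3 (TY_f 6) := by
  funext n
  unfold TY_0
  by_cases h3 : 3 ∣ n
  · rw [if_pos h3, if_pos h3]
  · rw [if_neg h3, if_neg h3]
    unfold TY_f yy
    have : (n.primeFactors.filter fun l => ¬ l ∣ 2) =
        n.primeFactors.filter fun l => ¬ l ∣ 6 := by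
      refine Finset.filter_congr fun l hl => not_congr ?_
      have hp := Nat.prime_of_mem_primeFactors hl
      have hd := Nat.dvd_of_mem_primeFactors hl
      constructor
      · intro h; exact h.trans (by norm_num)
      · intro h
        have h6 : l ∣ 2 * 3 := h
        rcases (Nat.Prime.dvd_mul hp).1 h6 with h7 | h7
        · exact h7
        · rw [(Nat.prime_dvd_prime_iff_eq hp Nat.prime_three).1 h7] at hd
          exact absurd hd h3
    rw [this]

noncomputable def TYS_u : ℕ → ℝ := TY_0 3 (TY_f 6)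

theorem TYS_upper (N : ℕ) : VW 2 N ≤ 5 / 3 * TY_B TYS_u TYS_u N := by
  rw [TY_VW]
  have a1 := TY_B_up Nat.prime_three (TY_f 2) (TY_f_nonneg 2) (2 / 3) (by norm_num)
    (fun n h => by rw [TY_f_one 2 Nat.prime_three n h, if_neg (by norm_num)]; norm_num)
    (fun n hn h => TY_f_two 2 Nat.prime_three n hn h) N
  rw [TYS_same] at a1
  change _ ≤ _ * TY_B TYS_u TYS_u N at a1
  norm_num at a1
  linarith

theorem TYS_lower (K N : ℕ) : (2 - (1 / 3 : ℝ) ^ K) *
    TY_B TYS_u TYS_u (N / 3 ^ K) ≤ VW 6 N := by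
  rw [TY_VW]
  have a1 := TY_B_lo Nat.prime_three (TY_f 6) (TY_f_nonneg 6) 1 (by norm_num)
    (fun n h => by rw [TY_f_one 6 Nat.prime_three n h, if_pos (by norm_num)])
    (fun n hn h => TY_f_two 6 Nat.prime_three n hn h) K N
  change _ * TY_B TYS_u TYS_u _ ≤ _ at a1
  refine le_trans (le_of_eq ?_) a1
  push_cast
  ring

theorem TYS (h : VLS_stmt) : TYS_stmt := by
  intro ε hε
  -- choose K
  obtain ⟨K, hK⟩ := exists_pow_lt_of_lt_one (show (0:ℝ) < min (1 / 5) (ε / 4) by positivity)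
    (show (1 / 3 : ℝ) < 1 by norm_num)
  set t : ℝ := (1 / 3 : ℝ) ^ K with ht
  have ht0 : 0 ≤ t := by positivity
  have ht1 : t < 1 / 5 := hK.trans_le (min_le_left _ _)
  have ht2 : t < ε / 4 := hK.trans_le (min_le_right _ _)
  set Q : ℕ := 3 ^ K with hQ
  have hQ1 : 1 ≤ Q := Nat.one_le_iff_ne_zero.2 (by positivity)
  have hlQ : 0 ≤ Real.log Q := Real.log_natCast_nonneg Q
  set R : ℝ := max 1 (56 * (1 + Real.log Q) / ε) with hR
  refine ⟨⌈Real.exp R⌉₊ + 1, fun N hN => ?_⟩
  have hN1 : 1 ≤ N := by omega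
  have hlog : R ≤ Real.log N := by
    rw [Real.le_log_iff_exp_le (by exact_mod_cast hN1)]
    refine (Nat.le_ceil _).trans ?_
    exact_mod_cast (show ⌈Real.exp R⌉₊ ≤ N by omega)
  have hl1 : 1 ≤ Real.log N := (le_max_left _ _).trans hlog
  have hl2 : 56 * (1 + Real.log Q) ≤ ε * Real.log N := by
    have := (le_max_right _ _).trans hlog
    rw [div_le_iff₀ hε] at this
    linarith
  have hV := h 6 N (by norm_num) (dvd_refl _) (by omega)
  have k1 := TYS_upper N
  have k2 := TYS_lower K N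
  have k3 := TY_E TYS_u (TY_0_nonneg (TY_f_nonneg 6))
    (fun n => by
      unfold TYS_u TY_0
      split_ifs
      · positivity
      · exact TY_f_le 6 n) N Q hN1 hQ1
  rw [← ht] at k2
  rw [← hQ] at k2
  set U : ℝ := TY_B TYS_u TYS_u (N / Q) with hU
  set V : ℝ := VW 6 N with hVd
  have hU0 : 0 ≤ U :=
    Finset.sum_nonneg fun a _ => mul_nonneg (TY_0_nonneg (TY_f_nonneg 6) a)
      (TY_A_nonneg (TY_0_nonneg (TY_f_nonneg 6)) a _)
  have hV0 : 0 ≤ V := le_trans (by positivity) hV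
  have hUV : U ≤ 5 / 9 * V := by nlinarith
  have e1 : 2 * U ≤ V + 5 / 36 * ε * V := by
    have g1 : t * U ≤ ε / 4 * (5 / 9 * V) := mul_le_mul ht2.le hUV hU0 (by positivity)
    linarith
  have e2 : 5 / 3 * (2 * (1 + Real.log N) * (1 + Real.log Q)) ≤ ε / 8 * Real.log N ^ 2 := by
    have g1 : 1 + Real.log N ≤ 2 * Real.log N := by linarith
    have g2 : (1 + Real.log N) * (1 + Real.log Q) ≤ 2 * Real.log N * (1 + Real.log Q) :=
      mul_le_mul_of_nonneg_right g1 (by linarith)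
    have g3 : 56 * (1 + Real.log Q) * Real.log N ≤ ε * Real.log N * Real.log N :=
      mul_le_mul_of_nonneg_right hl2 (by linarith)
    nlinarith
  have e3 : ε / 8 * Real.log N ^ 2 ≤ ε / 2 * V := by nlinarith
  have e4 : 0 ≤ ε * V := by positivity
  nlinarith

end Pool.Agent.helper11.TX
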